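import Pool.Agent.LDK.Dnf

/-!
# Depth two circuits do not find cliques of logarithmic size
-/

namespace Pool.Agent.Results.MP_e1477a_lc.DepthTwo

open LDK

open Classical in
/-- A DNF formula with at most `n ^ (a log n)` terms is given for every vertex, in the variables
`x e`, one for every pair `e` of vertices; a term is a partial assignment of the pairs, and
`dnf T x` is the set of the vertices whose formula is true at `x`. For every `c > 0` there is
`a > 0` such that, for all large `n`, this set is a clique with at least `c log n` vertices
for at most a fraction `1 - a` of all graphs. Here `log` is the binary logarithm. -/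
theorem result (c : ℝ) (hc : 0 < c) :
    ∃ a : ℝ, 0 < a ∧ ∃ n₀ : ℕ, ∀ n ≥ n₀, ∀ T : Fin n → Finset (Pair n → Option Bool),
      (∀ v, ((T v).card : ℝ) ≤ (n : ℝ) ^ (a * Real.logb 2 n)) →
      avg (fun x => if IsClique x (dnf T x) ∧ c * Real.logb 2 n ≤ ((dnf T x).card : ℝ)
        then (1 : ℝ) else 0) ≤ 1 - a :=
  Ddnf c hc

end Pool.Agent.Results.MP_e1477a_lc.DepthTwo
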