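import Pool.Agent.LDK.Bpol
import Pool.Agent.LDK.Cc

/-!
# The degree threshold for finding cliques with low degree polynomials
-/

namespace Pool.Agent.Results.MP_e1477a_lc.LowDegreeThreshold

open LDK

open Classical in
/-- Cliques of the random graph `G(n, 1/2)`; `log` is the binary logarithm. The degree which
polynomials need in order to find cliques with `c log n` vertices has order `log² n`, for every
`0 < c < 2`.

First part: for every `c > 0`, (random) polynomials of degree at most `a log² n`, with second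
moment at most `γ log n`, find cliques with `c log n` vertices with probability at most `1 - a`.

Second part: for every `c < 2` and `ε > 0` there are polynomials of degree at most `C log² n`
which find cliques with `c log n` vertices with probability at least `1 - ε`. -/
theorem result :
    (∀ c γ : ℝ, 0 < c → 0 < γ → ∃ a : ℝ, 0 < a ∧ ∃ n₀ : ℕ, ∀ n ≥ n₀,
      ∀ (Ω : Type) [Fintype Ω] [Nonempty Ω] (f : Ω → Fin n → MvPolynomial (Pair n) ℝ),
        (∀ ω v, ((f ω v).totalDegree : ℝ) ≤ a * (Real.logb 2 n) ^ 2) →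
        (∑ ω, avg (fun x => ∑ v, val (f ω v) x ^ 2)) / Fintype.card Ω ≤ γ * Real.logb 2 n →
        (∑ ω, avg (fun x => if Finds c a (f ω) x then (1 : ℝ) else 0)) / Fintype.card Ω ≤
          1 - a) ∧
    (∀ c ε : ℝ, 0 < c → c < 2 → 0 < ε → ∃ C : ℝ, ∃ n₀ : ℕ, ∀ n ≥ n₀,
      ∃ f : Fin n → MvPolynomial (Pair n) ℝ,
        (∀ v, ((f v).totalDegree : ℝ) ≤ C * (Real.logb 2 n) ^ 2) ∧
        avg (fun x => ∑ v, val (f v) x ^ 2) ≤ 8 * Real.logb 2 n ∧
        1 - ε ≤ avg (fun x => if ∃ A : Finset (Fin n), IsClique x A ∧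
          c * Real.logb 2 n ≤ (A.card : ℝ) ∧
          ∀ v, val (f v) x = (if v ∈ A then 1 else 0) then (1 : ℝ) else 0)) :=
  ⟨Bpol, Cpol⟩

end Pool.Agent.Results.MP_e1477a_lc.LowDegreeThreshold
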