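import Pool.Agent.LDK.Aa
import Pool.Agent.LDK.Cc

/-!
# Finding cliques of random graphs is noise sensitive
-/

namespace Pool.Agent.Results.MP_e1477a_lc.NoiseSensitivity

open LDK

open Classical in
/-- Cliques of the random graph `G(n, 1/2)`; `log` is the binary logarithm.

First part: every map `K` which finds, with probability at least `q`, a clique with at least
`c log n` vertices (`K x = ∅` means failure) is sensitive to noise of rate `1 / log² n`: on
average at least `ε log n` vertices of the clique of `x` are not in the clique of the graph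
obtained by flipping every pair with probability `1 / log² n`. Here `c > 0` is arbitrary.

Second part: for `c < 2` this rate is optimal, some `K` has sensitivity at most `C τ log³ n`
under noise of every rate `τ`. -/
theorem result :
    (∀ c q : ℝ, 0 < c → 0 < q → ∃ ε : ℝ, 0 < ε ∧ ∃ n₀ : ℕ, ∀ n ≥ n₀,
      ∀ K : Graph n → Finset (Fin n),
        (∀ x, K x = ∅ ∨ (IsClique x (K x) ∧ c * Real.logb 2 n ≤ ((K x).card : ℝ))) →
        q ≤ avg (fun x => if K x = ∅ then (0 : ℝ) else 1) →
        ε * Real.logb 2 n ≤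
          avgNoise (1 / (Real.logb 2 n) ^ 2) (fun x y => ((K x \ K y).card : ℝ))) ∧
    (∀ c ε : ℝ, 0 < c → c < 2 → 0 < ε → ∃ C : ℝ, ∃ n₀ : ℕ, ∀ n ≥ n₀,
      ∃ K : Graph n → Finset (Fin n),
        (∀ x, K x = ∅ ∨ (IsClique x (K x) ∧ c * Real.logb 2 n ≤ ((K x).card : ℝ))) ∧
        1 - ε ≤ avg (fun x => if K x = ∅ then (0 : ℝ) else 1) ∧
        ∀ τ : ℝ, 0 ≤ τ → τ ≤ 1 →
          avgNoise τ (fun x y => ((K x \ K y).card : ℝ)) ≤ C * τ * (Real.logb 2 n) ^ 3) :=
  ⟨Aa, Dnoise⟩

end Pool.Agent.Results.MP_e1477a_lc.NoiseSensitivity
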