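import Pool.Agent.Karp.Alg11

/-!
# The exact power of read-once programs with bounded memory for finding large cliques
-/

namespace Pool.Agent.Results.MP_e1477a_lc.ReadOnceThreshold

open KarpRO

/-- Let `0 < c ≤ 2`. The largest clique which read-once programs with at most `2 ^ (n ^ c)` memory
states find in a uniform random graph has `(1 + c / 2 + o(1)) log n` vertices. First part: cliques
with `(1 + c / 2 + ε) log n` vertices are found with probability at most `n ^ (- η log n)`, even by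
randomised programs with `n ^ (η log n)` steps. Second part: cliques with
`(1 + c / 2 - ε) log n` vertices are found with high probability, by deterministic programs with
at most `n ^ 3` steps. -/
theorem result (c ε : ℝ) (hc : 0 < c) (hc2 : c ≤ 2) (hε : 0 < ε) :
    (∃ η : ℝ, 0 < η ∧ ∃ n₀ : ℕ, ∀ n ≥ n₀, ∀ M : ℕ, (M : ℝ) ≤ 2 ^ ((n : ℝ) ^ c) →
      ∀ (ι : Type) [Fintype ι] (P : ι → Program n M),
      (∀ i, (P i).ReadOnce ∧ ((P i).steps : ℝ) ≤ (n : ℝ) ^ (η * Real.logb 2 n)) →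
      (Nat.card {x : ι × SimpleGraph (Fin n) //
        x.2.IsClique ((P x.1).output x.2 : Set (Fin n)) ∧
        (1 + c / 2 + ε) * Real.logb 2 n ≤ (((P x.1).output x.2).card : ℝ)} : ℝ) ≤
      (n : ℝ) ^ (-(η * Real.logb 2 n)) * Nat.card (ι × SimpleGraph (Fin n))) ∧
    (∀ δ : ℝ, 0 < δ → ∃ n₀ : ℕ, ∀ n ≥ n₀, ∃ M : ℕ, (M : ℝ) ≤ 2 ^ ((n : ℝ) ^ c) ∧
      ∃ P : Program n M, P.ReadOnce ∧ P.steps ≤ n ^ 3 ∧
      (1 - δ) * (Nat.card (SimpleGraph (Fin n)) : ℝ) ≤
      (Nat.card {G : SimpleGraph (Fin n) // G.IsClique (P.output G : Set (Fin n)) ∧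
        (1 + c / 2 - ε) * Real.logb 2 n ≤ ((P.output G).card : ℝ)} : ℝ)) := by
  classical
  refine ⟨?_, fun δ hδ => upper c ε δ hc hc2 hε hδ⟩
  obtain ⟨η, hη, n₀, h⟩ := lower c ε hc.le hε
  refine ⟨η, hη, n₀, ?_⟩
  intro n hn M hM ι _ P hP
  rw [Nat.card_congr (Equiv.subtypeProdEquivSigmaSubtype fun (i : ι) (G : SimpleGraph (Fin n)) =>
    G.IsClique ((P i).output G : Set (Fin n)) ∧
        (1 + c / 2 + ε) * Real.logb 2 n ≤ (((P i).output G).card : ℝ)), Nat.card_sigma,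
    Nat.card_prod, Nat.card_eq_fintype_card (α := ι)]
  push_cast
  calc _ ≤ ∑ _i : ι, (n : ℝ) ^ (-(η * Real.logb 2 n)) * Nat.card (SimpleGraph (Fin n)) :=
        Finset.sum_le_sum fun i _ => h n hn M hM (P i) (hP i).1 (hP i).2
    _ = _ := by
        rw [Finset.sum_const, Finset.card_univ, nsmul_eq_mul]
        ring

end Pool.Agent.Results.MP_e1477a_lc.ReadOnceThreshold
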